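import Pool.Agent.H43.TC.Targets

/-!
# Mixing profiles (module NER)
-/

set_option autoImplicit false

namespace Pool.Agent.H31.TC

open Pool.Agent.H43.TC Filter Topology

private lemma transport {k N N' : ℕ} (h : N = N') [NeZero N] [NeZero N'] (c : Tor k N → Bool) :
    ∃ c' : Tor k N' → Bool, (∀ b, dens c' b = dens c b) ∧ ∀ b t, mono c' b t = mono c b t := by
  subst h
  exact ⟨c, fun b => rfl, fun b t => rfl⟩

theorem ner (hPUL : T_PUL) (hMIX : T_MIX) : T_NER := by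
  intro k t i₀ ρ₁ R₁ B₁ ρ₂ R₂ B₂ h₁ h₂ l M hM hl ε hε n₀
  obtain ⟨n₁, c₁, _, hd₁, hR₁, hB₁⟩ := h₁ (ε / 2) (by linarith) 0
  obtain ⟨n₂, c₂, _, hd₂, hR₂, hB₂⟩ := h₂ (ε / 2) (by linarith) 0
  -- common side
  set n : ℕ := (n₁ + 3) * (n₂ + 3) with hn
  have hnpos : 0 < n := by positivity
  haveI : NeZero n := ⟨hnpos.ne'⟩
  obtain ⟨d₁, hd₁d, hd₁m⟩ : ∃ d : Tor k n → Bool, (∀ b, dens d b = dens c₁ b) ∧
      ∀ b t, mono d b t = mono c₁ b t :=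
    ⟨fun x => c₁ (red (n₁ + 3) (n₂ + 3) x), fun b => (hPUL k (n₁ + 3) (n₂ + 3) c₁ b t).1,
      fun b t => (hPUL k (n₁ + 3) (n₂ + 3) c₁ b t).2⟩
  obtain ⟨d₂, hd₂d, hd₂m⟩ : ∃ d : Tor k n → Bool, (∀ b, dens d b = dens c₂ b) ∧
      ∀ b t, mono d b t = mono c₂ b t := by
    have hcomm : (n₂ + 3) * (n₁ + 3) = n := by rw [hn, mul_comm]
    obtain ⟨c', h1, h2⟩ := transport hcomm (fun x => c₂ (red (n₂ + 3) (n₁ + 3) x))
    refine ⟨c', fun b => ?_, fun b t => ?_⟩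
    · rw [h1 b]
      exact (hPUL k (n₂ + 3) (n₁ + 3) c₂ b t).1
    · rw [h2 b t]
      exact (hPUL k (n₂ + 3) (n₁ + 3) c₂ b t).2
  -- a large factor
  obtain ⟨q₀, hq₀⟩ := exists_nat_gt ((4 * t + 2 : ℝ) / (ε / 2))
  set q : ℕ := q₀ + n₀ + 3 with hq
  have hqpos : 0 < q := by omega
  have hMq : 0 < M * q := by positivity
  haveI : NeZero (M * q) := ⟨hMq.ne'⟩
  obtain ⟨c, hcd, hcm⟩ := hMIX k n (M * q) (l * q) t i₀ (Nat.mul_le_mul_right q hl) d₁ d₂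
  have hMR : (0 : ℝ) < M := by exact_mod_cast hM
  have hqR : (0 : ℝ) < q := by exact_mod_cast hqpos
  have hnR : (0 : ℝ) < n := by exact_mod_cast hnpos
  have hfrac : ((l * q : ℕ) : ℝ) / ((M * q : ℕ) : ℝ) = l / M := by
    push_cast
    field_simp
  rw [hfrac] at hcd hcm
  have hl0 : 0 ≤ (l / M : ℝ) := by positivity
  have hl1 : (l / M : ℝ) ≤ 1 := by
    rw [div_le_one hMR]
    exact_mod_cast hl
  -- the error
  have herr : (4 * t + 2 : ℝ) / ((n : ℝ) * ((M * q : ℕ) : ℝ)) < ε / 2 := by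
    have h1 : (q₀ : ℝ) ≤ (n : ℝ) * ((M * q : ℕ) : ℝ) := by
      have h2 : q₀ ≤ n * (M * q) := by
        calc q₀ ≤ q := by omega
          _ = 1 * (1 * q) := by ring
          _ ≤ n * (M * q) := Nat.mul_le_mul hnpos (Nat.mul_le_mul_right q hM)
      exact_mod_cast h2
    have h3 : (4 * t + 2 : ℝ) / (ε / 2) < (n : ℝ) * ((M * q : ℕ) : ℝ) := lt_of_lt_of_le hq₀ h1
    have h4 : 0 < (n : ℝ) * ((M * q : ℕ) : ℝ) := by
      push_cast
      positivity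
    rw [div_lt_iff₀ (by linarith)] at h3
    rw [div_lt_iff₀ h4]
    linarith
  -- the side
  obtain ⟨n₃, hn₃⟩ : ∃ n₃, n * (M * q) = n₃ + 3 := by
    refine ⟨n * (M * q) - 3, ?_⟩
    have h2 : q ≤ n * (M * q) := by
      calc q = 1 * (1 * q) := by ring
        _ ≤ n * (M * q) := Nat.mul_le_mul hnpos (Nat.mul_le_mul_right q hM)
    omega
  have hn₃' : n₀ ≤ n₃ := by
    have h2 : q ≤ n * (M * q) := by
      calc q = 1 * (1 * q) := by ring
        _ ≤ n * (M * q) := Nat.mul_le_mul hnpos (Nat.mul_le_mul_right q hM)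
    omega
  obtain ⟨c', h1, h2⟩ := transport hn₃ c
  have hmain : ∀ b (P₁ P₂ : ℝ), |mono c₁ b t - P₁| < ε / 2 → |mono c₂ b t - P₂| < ε / 2 →
      |mono c' b t - ((l / M : ℝ) * P₁ + (1 - l / M : ℝ) * P₂)| < ε := by
    intro b P₁ P₂ hP₁ hP₂
    have h3 := hcm b
    rw [hd₁m, hd₂m] at h3
    rw [h2 b t]
    have h4 : mono c b t - ((l / M : ℝ) * P₁ + (1 - l / M : ℝ) * P₂) =
        (mono c b t - ((l / M : ℝ) * mono c₁ b t + (1 - l / M : ℝ) * mono c₂ b t)) +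
        ((l / M : ℝ) * (mono c₁ b t - P₁) + (1 - l / M : ℝ) * (mono c₂ b t - P₂)) := by ring
    rw [h4]
    refine lt_of_le_of_lt (abs_add_le _ _) ?_
    have h5 : |(l / M : ℝ) * (mono c₁ b t - P₁) + (1 - l / M : ℝ) * (mono c₂ b t - P₂)| ≤
        ε / 2 := by
      refine (abs_add_le _ _).trans ?_
      rw [abs_mul, abs_mul, abs_of_nonneg hl0, abs_of_nonneg (by linarith : 0 ≤ (1 - l / M : ℝ))]
      have h6 := mul_le_mul_of_nonneg_left hP₁.le hl0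
      have h7 := mul_le_mul_of_nonneg_left hP₂.le (by linarith : 0 ≤ (1 - l / M : ℝ))
      linarith
    linarith
  refine ⟨n₃, c', hn₃', ?_, hmain true R₁ R₂ hR₁ hR₂, hmain false B₁ B₂ hB₁ hB₂⟩
  rw [h1 true, hcd true, hd₁d, hd₂d, hd₁, hd₂]

end Pool.Agent.H31.TC
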