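import Pool.Agent.H43.TC.Targets

/-!
# The region in terms of profiles (module REG)
-/

set_option autoImplicit false

namespace Pool.Agent.H31.TC

open Pool.Agent.H43.TC Filter Topology

section
variable {k n : ℕ} [NeZero n]

private lemma size_add (c : Tor k n → Bool) : size c true + size c false = n ^ k := by
  unfold size
  have h : (Finset.univ.filter (fun x => c x = false)) =
      (Finset.univ.filter (fun x => ¬ c x = true)) := by
    ext x
    simp
  rw [h, Finset.card_filter_add_card_filter_not]
  simp [ZMod.card]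

private lemma npos : (0 : ℝ) < (n : ℝ) ^ k := by
  have : (0 : ℝ) < n := by exact_mod_cast Nat.pos_of_ne_zero (NeZero.ne n)
  positivity

private lemma bal_size (c : Tor k n → Bool) (h : Balanced c) (b : Bool) :
    (size c b : ℝ) = (n : ℝ) ^ k / 2 := by
  have h1 : ((size c true : ℕ) : ℝ) + (size c false : ℕ) = (n : ℝ) ^ k := by
    exact_mod_cast size_add c
  have h2 : ((size c true : ℕ) : ℝ) = (size c false : ℕ) := by exact_mod_cast h
  cases b <;> linarith

private lemma bal_dens (c : Tor k n → Bool) (h : Balanced c) (b : Bool) : dens c b = 1 / 2 := by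
  unfold dens
  rw [bal_size c h b]
  have := npos (k := k) (n := n)
  field_simp

private lemma bal_stay (c : Tor k n → Bool) (h : Balanced c) (b : Bool) (t : ℕ) :
    stay c b t = 2 * mono c b t := by
  unfold stay mono
  rw [bal_size c h b]
  have h1 := npos (k := k) (n := n)
  rw [show (n : ℝ) ^ k / 2 * (2 * (k : ℝ)) ^ t = ((n : ℝ) ^ k * (2 * (k : ℝ)) ^ t) / 2 by ring]
  rw [div_div_eq_mul_div]
  ring

private lemma dens_bal (c : Tor k n → Bool) (h : dens c true = 1 / 2) : Balanced c := by
  unfold dens at h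
  have h1 := npos (k := k) (n := n)
  rw [div_eq_iff h1.ne'] at h
  have h2 : ((size c true : ℕ) : ℝ) + (size c false : ℕ) = (n : ℝ) ^ k := by
    exact_mod_cast size_add c
  have h3 : ((size c true : ℕ) : ℝ) = (size c false : ℕ) := by linarith
  unfold Pool.Agent.H43.TC.Balanced
  exact_mod_cast h3

end

theorem reg : T_REG := by
  intro k t x y _
  constructor
  · rintro ⟨n, c, hn, hbal, hlim⟩ ε hε n₀
    rw [Metric.tendsto_atTop] at hlim
    obtain ⟨J, hJ⟩ := hlim ε hε
    obtain ⟨J', hJ'⟩ := (tendsto_atTop.1 hn n₀).exists_forall_of_atTop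
    set j := max J J' with hj
    have h1 := hJ j (le_max_left _ _)
    have h2 := hJ' j (le_max_right _ _)
    rw [Prod.dist_eq, max_lt_iff, Real.dist_eq, Real.dist_eq] at h1
    simp only at h1
    rw [bal_stay _ (hbal j), bal_stay _ (hbal j)] at h1
    refine ⟨n j, c j, h2, bal_dens _ (hbal j) _, ?_, ?_⟩
    · have h3 : 2 * mono (c j) true t - x = 2 * (mono (c j) true t - x / 2) := by ring
      rw [h3, abs_mul, abs_of_pos (by norm_num : (0 : ℝ) < 2)] at h1
      have := abs_nonneg (mono (c j) true t - x / 2)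
      linarith [h1.1]
    · have h3 : 2 * mono (c j) false t - y = 2 * (mono (c j) false t - y / 2) := by ring
      rw [h3, abs_mul, abs_of_pos (by norm_num : (0 : ℝ) < 2)] at h1
      have := abs_nonneg (mono (c j) false t - y / 2)
      linarith [h1.2]
  · intro h
    have hex : ∀ j : ℕ, ∃ (n : ℕ) (c : Tor k (n + 3) → Bool), j ≤ n ∧
        dens c true = 1 / 2 ∧ |mono c true t - x / 2| < 1 / ((j : ℝ) + 1) ∧
        |mono c false t - y / 2| < 1 / ((j : ℝ) + 1) := fun j => h _ (by positivity) j
    choose n c hn hd hR hB using hex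
    have hbal : ∀ j, Balanced (c j) := fun j => dens_bal _ (hd j)
    refine ⟨n, c, tendsto_atTop_mono hn tendsto_id, hbal, ?_⟩
    have hz : Tendsto (fun j : ℕ => 2 * (1 / ((j : ℝ) + 1))) atTop (𝓝 0) := by
      have := (tendsto_one_div_add_atTop_nhds_zero_nat (𝕜 := ℝ)).const_mul 2
      simpa using this
    refine Tendsto.prodMk_nhds ?_ ?_
    · rw [tendsto_iff_dist_tendsto_zero]
      refine squeeze_zero (fun _ => dist_nonneg) (fun j => ?_) hz
      rw [bal_stay _ (hbal j), Real.dist_eq]
      have h3 : 2 * mono (c j) true t - x = 2 * (mono (c j) true t - x / 2) := by ring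
      rw [h3, abs_mul, abs_of_pos (by norm_num : (0 : ℝ) < 2)]
      linarith [hR j]
    · rw [tendsto_iff_dist_tendsto_zero]
      refine squeeze_zero (fun _ => dist_nonneg) (fun j => ?_) hz
      rw [bal_stay _ (hbal j), Real.dist_eq]
      have h3 : 2 * mono (c j) false t - y = 2 * (mono (c j) false t - y / 2) := by ring
      rw [h3, abs_mul, abs_of_pos (by norm_num : (0 : ℝ) < 2)]
      linarith [hB j]

end Pool.Agent.H31.TC
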